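import Mathlib
import Pool.Agent.Helper971.BK.Net
import Pool.Agent.Helper971.BK.P7

set_option autoImplicit false

open scoped Manifold ContDiff

namespace Pool.Agent.Results.MP_c30897_gt.BeckerKahn

open Pool.Agent.GNet

/-- **Answer to the question of Becker and Kahn.** Let `(M, g)` be a closed Riemannian manifold: a
compact Hausdorff smooth manifold without boundary, modelled on a finite-dimensional real inner
product space `E` (for example `EuclideanSpace ℝ (Fin n)`), with a smooth Riemannian metric `g`.
There is a function `f`, depending only on `(M, g)`, such that every closed geodesic net on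
`(M, g)` of length `L` has at most `f L` vertices. -/
theorem result {E : Type*} [NormedAddCommGroup E] [InnerProductSpace ℝ E] [FiniteDimensional ℝ E]
    {M : Type*} [TopologicalSpace M] [T2Space M] [CompactSpace M] [ChartedSpace E M]
    [IsManifold 𝓘(ℝ, E) ∞ M] (g : RMetric E M) :
    ∃ f : ℝ → ℕ, ∀ N : ClosedGeodesicNet g, N.V.card ≤ f N.length :=
  becker_kahn g

end Pool.Agent.Results.MP_c30897_gt.BeckerKahn
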